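import Mathlib.Combinatorics.SimpleGraph.Clique
import Mathlib.Combinatorics.SimpleGraph.Circulant
import Mathlib.Data.Fintype.Prod
import Mathlib.Data.Fintype.Basic
import Mathlib.Data.Fintype.Sum
import Mathlib.Data.Fintype.Pi
import Mathlib.Tactic

/-!
# A graph `G` with `K(G) = C_5`, `c(G) = 7` and domatic number at most `6`

The graph has the vertices `A_i` (three vertices) and `B_i` (one vertex), `i` modulo `5`, and the
maximal cliques are `Q_i = A_{i-1} ∪ B_i ∪ A_i`.  If the vertices were partitioned into seven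
dominating sets, each `Q_i` would contain every colour exactly once, because `Q_i` is the closed
neighbourhood of the vertex in `B_i`.  The colour sets of `A_0, ..., A_4` would then be five
`3`-subsets of a `7`-set with cyclically consecutive ones disjoint, which is impossible because the
Kneser graph `K(7,3)` has odd girth `7`.
-/

set_option autoImplicit false

namespace Pool.Agent.Results.MP_72856e_co.FiveCycle

open Finset

/-- `S` is a clique in the sense of the problem: a maximal complete subgraph. -/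
def IsMaxClique {V : Type} (G : SimpleGraph V) (S : Finset V) : Prop :=
  Maximal (fun T : Finset V => G.IsClique (T : Set V)) S

/-- `c(G)`: the smallest number of vertices of a maximal complete subgraph. -/
noncomputable def c {V : Type} (G : SimpleGraph V) : ℕ :=
  sInf {k | ∃ S : Finset V, IsMaxClique G S ∧ S.card = k}

/-- `D` is a dominating set of `G`. -/
def IsDominating {V : Type} (G : SimpleGraph V) (D : Set V) : Prop :=
  ∀ v, v ∉ D → ∃ w ∈ D, G.Adj v w

/-- The domatic number: the largest `k` such that the vertex set can be partitioned into `k`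
dominating sets (the partition is given by a map to `Fin k` all fibres of which are dominating). -/
noncomputable def domatic {V : Type} (G : SimpleGraph V) : ℕ :=
  sSup {k | ∃ f : V → Fin k, ∀ a : Fin k, IsDominating G {v | f v = a}}

/-- The clique graph `K(G)`. -/
def cliqueGraph {V : Type} (G : SimpleGraph V) : SimpleGraph {S : Finset V // IsMaxClique G S} where
  Adj S T := S ≠ T ∧ ∃ v, v ∈ S.1 ∧ v ∈ T.1
  symm := ⟨fun _ _ h => ⟨h.1.symm, by obtain ⟨v, h1, h2⟩ := h.2; exact ⟨v, h2, h1⟩⟩⟩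
  loopless := ⟨fun _ h => h.1 rfl⟩

/-- the vertices: `(i, 0)` is the vertex of `B_i`, and `(i, 1), (i, 2), (i, 3)` those of `A_i` -/
abbrev W := Fin 5 × Fin 4

/-- the clique `Q_i = A_{i-1} ∪ B_i ∪ A_i` -/
def Q (i : Fin 5) : Finset W := univ.filter (fun x => i = x.1 ∨ (x.2 ≠ 0 ∧ i = x.1 + 1))

/-- the graph -/
def GG : SimpleGraph W where
  Adj x y := x ≠ y ∧ ∃ i, x ∈ Q i ∧ y ∈ Q i
  symm := ⟨fun _ _ h => ⟨h.1.symm, by obtain ⟨v, h1, h2⟩ := h.2; exact ⟨v, h2, h1⟩⟩⟩
  loopless := ⟨fun _ h => h.1 rfl⟩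

theorem mem_Q (i : Fin 5) (x : W) : x ∈ Q i ↔ i = x.1 ∨ (x.2 ≠ 0 ∧ i = x.1 + 1) := by
  simp [Q]

/-- membership in `Q i` of a vertex with first coordinate `a`; `p` says whether it is in `A_a` -/
def bm (i a : Fin 5) (p : Bool) : Bool := decide (i = a) || (p && decide (i = a + 1))

theorem helly_aux : ∀ (a b c : Fin 5) (p q r : Bool),
    (∃ i : Fin 5, (bm i a p && bm i b q) = true) →
    (∃ i : Fin 5, (bm i b q && bm i c r) = true) →
    (∃ i : Fin 5, (bm i a p && bm i c r) = true) →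
    ∃ i : Fin 5, (bm i a p && bm i b q && bm i c r) = true := by
  decide

theorem mem_Q' (i : Fin 5) (x : W) : x ∈ Q i ↔ bm i x.1 (decide (x.2 ≠ 0)) = true := by
  rw [mem_Q, bm, Bool.or_eq_true, Bool.and_eq_true, decide_eq_true_iff, decide_eq_true_iff,
    decide_eq_true_iff]

theorem helly (x y z : W) (h1 : ∃ i, x ∈ Q i ∧ y ∈ Q i) (h2 : ∃ i, y ∈ Q i ∧ z ∈ Q i)
    (h3 : ∃ i, x ∈ Q i ∧ z ∈ Q i) : ∃ i, x ∈ Q i ∧ y ∈ Q i ∧ z ∈ Q i := by
  simp only [mem_Q'] at h1 h2 h3 ⊢
  obtain ⟨i1, h1⟩ := h1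
  obtain ⟨i2, h2⟩ := h2
  obtain ⟨i3, h3⟩ := h3
  obtain ⟨i, hi⟩ := helly_aux x.1 y.1 z.1 (decide (x.2 ≠ 0)) (decide (y.2 ≠ 0))
    (decide (z.2 ≠ 0)) ⟨i1, by rw [h1.1, h1.2]; rfl⟩ ⟨i2, by rw [h2.1, h2.2]; rfl⟩
    ⟨i3, by rw [h3.1, h3.2]; rfl⟩
  rw [Bool.and_eq_true, Bool.and_eq_true] at hi
  exact ⟨i, hi.1.1, hi.1.2, hi.2⟩

theorem common {S : Finset W} (hS : GG.IsClique (S : Set W)) {x y : W} (hx : x ∈ S) (hy : y ∈ S) :
    ∃ i, x ∈ Q i ∧ y ∈ Q i := by
  by_cases hxy : x = y
  · subst hxy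
    exact ⟨x.1, by rw [mem_Q]; exact Or.inl rfl, by rw [mem_Q]; exact Or.inl rfl⟩
  · exact (hS hx hy hxy).2

theorem clique_sub {S : Finset W} (hS : GG.IsClique (S : Set W)) : ∃ i, S ⊆ Q i := by
  by_contra hcon
  push Not at hcon
  have h : ∀ i, ∃ y ∈ S, y ∉ Q i := fun i => by
    have := hcon i
    rw [Finset.not_subset] at this
    exact this
  obtain ⟨x, hx, -⟩ := h 0
  obtain ⟨y, hy, hyn⟩ := h x.1
  obtain ⟨z, hz, hzn⟩ := h (x.1 + 1)
  obtain ⟨i, h1, h2, h3⟩ := helly x y z (common hS hx hy) (common hS hy hz) (common hS hx hz)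
  rw [mem_Q] at h1
  rcases h1 with rfl | ⟨_, rfl⟩
  · exact hyn h2
  · exact hzn h3

theorem Q_clique (i : Fin 5) : GG.IsClique (Q i : Set W) := by
  intro x hx y hy hxy
  exact ⟨hxy, i, hx, hy⟩

theorem Q_sub {i j : Fin 5} (h : Q i ⊆ Q j) : i = j := by
  have h1 : ((i, 0) : W) ∈ Q i := by rw [mem_Q]; exact Or.inl rfl
  have h2 := h h1
  rw [mem_Q] at h2
  rcases h2 with h2 | h2
  · exact h2.symm
  · exact absurd rfl h2.1

theorem Q_max (i : Fin 5) : IsMaxClique GG (Q i) := by
  refine ⟨Q_clique i, fun T hT hle => ?_⟩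
  obtain ⟨j, hj⟩ := clique_sub hT
  have : i = j := Q_sub (hle.trans hj)
  subst this
  exact hj

theorem max_eq {S : Finset W} (hS : IsMaxClique GG S) : ∃ i, S = Q i := by
  obtain ⟨i, hi⟩ := clique_sub hS.1
  exact ⟨i, le_antisymm hi (hS.2 (Q_clique i) hi)⟩

theorem Q_card (i : Fin 5) : (Q i).card = 7 := by
  revert i
  decide

theorem c_eq : c GG = 7 := by
  unfold c
  have : {k | ∃ S : Finset W, IsMaxClique GG S ∧ S.card = k} = {7} := by
    ext k
    constructor
    · rintro ⟨S, hS, rfl⟩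
      obtain ⟨i, rfl⟩ := max_eq hS
      exact Q_card i
    · rintro rfl
      exact ⟨Q 0, Q_max 0, Q_card 0⟩
  rw [this, csInf_singleton]

/-- the indices give the vertices of the clique graph -/
noncomputable def e : Fin 5 ≃ {S : Finset W // IsMaxClique GG S} :=
  Equiv.ofBijective (fun i => ⟨Q i, Q_max i⟩) ⟨by
    intro i j h
    exact Q_sub (le_of_eq (congrArg Subtype.val h)), by
    rintro ⟨S, hS⟩
    obtain ⟨i, rfl⟩ := max_eq hS
    exact ⟨i, rfl⟩⟩

theorem meet_iff : ∀ i j : Fin 5, (i ≠ j ∧ ∃ v, v ∈ Q i ∧ v ∈ Q j) ↔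
    (SimpleGraph.cycleGraph 5).Adj i j := by
  decide

theorem cliqueGraph_iso : Nonempty (cliqueGraph GG ≃g SimpleGraph.cycleGraph 5) := by
  refine ⟨SimpleGraph.Iso.symm ⟨e, ?_⟩⟩
  intro i j
  rw [← meet_iff i j]
  constructor
  · rintro ⟨h1, h2⟩
    exact ⟨fun h => h1 (by rw [h]), h2⟩
  · rintro ⟨h1, h2⟩
    exact ⟨fun h => h1 (e.injective h), h2⟩

/-- `A_i` -/
def A (i : Fin 5) : Finset W := univ.filter (fun x => x.1 = i ∧ x.2 ≠ 0)

theorem A_card (i : Fin 5) : (A i).card = 3 := by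
  revert i
  decide

theorem A_sub (i : Fin 5) : A i ⊆ Q i ∧ A i ⊆ Q (i + 1) ∧ Disjoint (A i) (A (i + 1)) := by
  revert i
  decide

theorem domatic_le (k : ℕ) (f : W → Fin k)
    (hf : ∀ a : Fin k, IsDominating GG {v | f v = a}) : k ≤ 6 := by
  by_contra hk
  push Not at hk
  -- every `Q i` meets every colour
  have hsurj : ∀ (i : Fin 5) (a : Fin k), ∃ x ∈ Q i, f x = a := by
    intro i a
    by_cases h : f (i, 0) = a
    · exact ⟨(i, 0), by rw [mem_Q]; exact Or.inl rfl, h⟩
    · obtain ⟨w, hw, hadj⟩ := hf a (i, 0) h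
      obtain ⟨hne, j, hj1, hj2⟩ := hadj
      rw [mem_Q] at hj1
      rcases hj1 with rfl | hj1
      · exact ⟨w, hj2, hw⟩
      · exact absurd rfl hj1.1
  have himg : ∀ i, (Q i).image f = univ := by
    intro i
    ext a
    simp only [Finset.mem_image, Finset.mem_univ, iff_true]
    exact hsurj i a
  have hk7 : k = 7 := by
    have h1 : ((Q 0).image f).card ≤ (Q 0).card := Finset.card_image_le
    rw [himg, Q_card, Finset.card_univ, Fintype.card_fin] at h1
    omega
  subst hk7
  have hinj : ∀ i, Set.InjOn f (Q i : Set W) := by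
    intro i
    apply Finset.injOn_of_card_image_eq
    rw [himg, Q_card, Finset.card_univ, Fintype.card_fin]
  -- colour sets
  have hSc : ∀ i, ((A i).image f).card = 3 := by
    intro i
    rw [Finset.card_image_of_injOn ((hinj i).mono (by exact_mod_cast (A_sub i).1)), A_card]
  have hSd : ∀ i, Disjoint ((A i).image f) ((A (i + 1)).image f) := by
    intro i
    rw [Finset.disjoint_left]
    intro a ha hb
    rw [Finset.mem_image] at ha hb
    obtain ⟨x, hx, rfl⟩ := ha
    obtain ⟨y, hy, hxy⟩ := hb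
    have : y = x := hinj (i + 1) (by exact_mod_cast (A_sub (i + 1)).1 hy)
      (by exact_mod_cast (A_sub i).2.1 hx) hxy
    subst this
    exact Finset.disjoint_left.1 (A_sub i).2.2 hx hy
  have key : ∀ S T U : Finset (Fin 7), S.card = 3 → T.card = 3 → U.card = 3 → Disjoint S T →
      Disjoint T U → 2 ≤ (S ∩ U).card := by
    intro S T U h1 h2 h3 h4 h5
    have h6 : Disjoint T (S ∪ U) := by
      rw [Finset.disjoint_union_right]
      exact ⟨h4.symm, h5⟩
    have h7 : (T ∪ (S ∪ U)).card ≤ 7 := by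
      simpa using Finset.card_le_univ (T ∪ (S ∪ U))
    rw [Finset.card_union_of_disjoint h6] at h7
    have h8 := Finset.card_union_add_card_inter S U
    omega
  have k1 := key _ _ _ (hSc 0) (hSc 1) (hSc 2) (hSd 0) (hSd 1)
  have k2 := key _ _ _ (hSc 0) (hSc 4) (hSc 3) (hSd 4).symm (hSd 3).symm
  have hd := hSd 2
  have hd' : Disjoint ((A 0).image f ∩ (A 2).image f) ((A 0).image f ∩ (A 3).image f) :=
    Disjoint.mono Finset.inter_subset_right Finset.inter_subset_right hd
  have h9 := Finset.card_union_of_disjoint hd'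
  have h10 : (((A 0).image f ∩ (A 2).image f) ∪ ((A 0).image f ∩ (A 3).image f)).card ≤
      ((A 0).image f).card := by
    apply Finset.card_le_card
    exact Finset.union_subset Finset.inter_subset_left Finset.inter_subset_left
  rw [h9, hSc 0] at h10
  omega

/-- There is a finite graph whose clique graph is an odd cycle (the 5-cycle) and whose domatic
number is smaller than the number of vertices of a smallest maximal complete subgraph. -/
theorem result : ∃ (V : Type) (_ : Fintype V) (G : SimpleGraph V),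
    (∃ n : ℕ, Odd n ∧ 3 ≤ n ∧ Nonempty (cliqueGraph G ≃g SimpleGraph.cycleGraph n)) ∧
    domatic G < c G := by
  refine ⟨W, inferInstance, GG, ⟨5, by decide, by norm_num, cliqueGraph_iso⟩, ?_⟩
  rw [c_eq]
  have : domatic GG ≤ 6 := by
    apply csSup_le
    · exact ⟨1, fun _ => 0, fun a v hv => absurd (Subsingleton.elim _ _) hv⟩
    · rintro k ⟨f, hf⟩
      exact domatic_le k f hf
  omega

end Pool.Agent.Results.MP_72856e_co.FiveCycle
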